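import Pool.Agent.Q26.CC.Cnt2

/-!
Counting bad points (helper26, job CC-GOOD of helper85's project CC): a scale and a height without
bad points.
-/

set_option autoImplicit false

open MeasureTheory Set Metric
open scoped ENNReal

namespace Pool.Agent.Q26.CC

/-- the height -/
noncomputable def ht (e x y : V3) : ℝ := ∑ i, e i * (y i - x i)

lemma ht_lip {e : V3} (he : ∑ i, e i ^ 2 = 1) (x y z : V3) :
    |ht e x y - ht e x z| ≤ 2 * ‖y - z‖ := by
  have h1 : ht e x y - ht e x z = ∑ i, e i * (y i - z i) := by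
    unfold ht
    rw [← Finset.sum_sub_distrib]
    exact Finset.sum_congr rfl fun i _ => by ring
  have h2 : |∑ i, e i * (y i - z i)| ≤ (∑ i, |e i|) * ‖y - z‖ := by
    refine (Finset.abs_sum_le_sum_abs _ _).trans ?_
    rw [Finset.sum_mul]
    refine Finset.sum_le_sum fun i _ => ?_
    rw [abs_mul]
    apply mul_le_mul_of_nonneg_left _ (abs_nonneg _)
    exact norm_le_pi_norm (y - z) i
  have h3 : ∑ i, |e i| ≤ 2 := by
    rw [Fin.sum_univ_three] at he ⊢
    nlinarith [sq_nonneg (|e 0| - |e 1|), sq_nonneg (|e 1| - |e 2|), sq_nonneg (|e 0| - |e 2|),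
      sq_abs (e 0), sq_abs (e 1), sq_abs (e 2), abs_nonneg (e 0), abs_nonneg (e 1),
      abs_nonneg (e 2)]
  rw [h1]
  exact h2.trans (mul_le_mul_of_nonneg_right h3 (norm_nonneg _))

lemma near_disc {x y : V3} {s r σ : ℝ} (hr : 0 < r) (hσ1 : σ ≤ 1) (hs0 : 0 ≤ s)
    (hs : s ≤ 2 * σ * r) (h : ∑ i, (y i - x i) ^ 2 - s ^ 2 ≤ r ^ 2) :
    y ∈ closedBall x (4 * r) := by
  rw [mem_closedBall, dist_eq_norm, pi_norm_le_iff_of_nonneg (by positivity)]
  intro i
  have h1 : (y i - x i) ^ 2 ≤ ∑ i, (y i - x i) ^ 2 :=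
    Finset.single_le_sum (f := fun i => (y i - x i) ^ 2) (fun i _ => sq_nonneg _)
      (Finset.mem_univ i)
  have h2 : s ≤ 2 * r := by nlinarith
  have h3 : s ^ 2 ≤ (2 * r) ^ 2 := pow_le_pow_left₀ hs0 h2 2
  rw [Real.norm_eq_abs, Pi.sub_apply]
  apply abs_le_of_sq_le_sq _ (by positivity)
  nlinarith

/-- If the balls around the points of `S` cover all the heights then `S` is large. -/
lemma heights {e x : V3} {a b ρ : ℝ} (S : Finset V3) (hρ : 0 < ρ)
    (h : ∀ s ∈ Icc a b, ∃ y ∈ S, |s - ht e x y| ≤ 2 * ρ) :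
    b - a ≤ S.card * (4 * ρ) := by
  have h1 : Icc a b ⊆ ⋃ y ∈ S, Icc (ht e x y - 2 * ρ) (ht e x y + 2 * ρ) := by
    intro s hs
    obtain ⟨y, hy, hsy⟩ := h s hs
    rw [abs_le] at hsy
    simp only [mem_iUnion]
    exact ⟨y, hy, by linarith [hsy.1], by linarith [hsy.2]⟩
  have h2 : volume (Icc a b) ≤ ∑ y ∈ S, volume (Icc (ht e x y - 2 * ρ) (ht e x y + 2 * ρ)) :=
    (measure_mono h1).trans (measure_biUnion_finset_le _ _)
  simp only [Real.volume_Icc] at h2
  have e1 : ∀ y, ht e x y + 2 * ρ - (ht e x y - 2 * ρ) = 4 * ρ := fun y => by ring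
  simp only [e1, Finset.sum_const, nsmul_eq_mul] at h2
  rw [← ENNReal.ofReal_natCast, ← ENNReal.ofReal_mul (by positivity),
    ENNReal.ofReal_le_ofReal_iff (by positivity)] at h2
  exact h2

theorem sel {β a ε C σ : ℝ} (hβ : 0 < β) (hβ1 : β ≤ 1) (ha : 0 ≤ a) (hε : 0 < ε) (hC : 0 ≤ C)
    (hσ : 0 < σ) (hσ1 : σ ≤ 1) :
    ∃ N : ℕ, ∀ (F : ℝ → V3 → ℝ≥0∞) (t r : ℝ) (x e : V3), 0 < r → ∑ i, e i ^ 2 = 1 →
      ∫⁻ τ in Ioo (t - r ^ 2) t, ∫⁻ z in ball x ((4 + a) * r), F τ z ≤ ENNReal.ofReal (C * r) →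
      ∃ n < N, ∃ s ∈ Icc (σ * r) (2 * σ * r), ∀ y, ht e x y = s →
        ∑ i, (y i - x i) ^ 2 - s ^ 2 ≤ r ^ 2 →
          DD F t β a (sc r n) y ≤ ENNReal.ofReal (ε * sc r n) := by
  have hl : (1 : ℝ) < 4 ^ β := Real.one_lt_rpow (by norm_num) hβ
  have hl1 : (0 : ℝ) < 4 ^ β - 1 := by linarith
  obtain ⟨Q, hQ⟩ : ∃ Q, Q = 2 * 4 ^ β / (4 ^ β - 1) * ((2 * a + 1) ^ 3 * C) / ε := ⟨_, rfl⟩
  have hQ0 : 0 ≤ Q := by rw [hQ]; positivity
  obtain ⟨N, hN⟩ := exists_nat_gt (4 * Q / σ)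
  refine ⟨N, ?_⟩
  intro F t r x e hr he hF
  -- bound for the families
  have hsum : ∀ (N : ℕ) (Y : ℕ → Finset V3),
      (∀ n, ∀ y ∈ Y n, ∀ y' ∈ Y n, y ≠ y' → sc r n ≤ ‖y - y'‖) →
      (∀ n, ∀ y ∈ Y n, y ∈ closedBall x (4 * r) ∧
        ENNReal.ofReal (ε * sc r n) < DD F t β a (sc r n) y) →
      ∑ n ∈ Finset.range N, (Y n).card * sc r n ≤ Q * r := by
    intro N Y h1 h2
    have h3 := count_sum (F := F) (t := t) (ε := ε) hβ hβ1 ha hr x N Y h1
      (fun n y hy => (h2 n y hy).1) (fun n y hy => (h2 n y hy).2.le)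
    have h4 : ENNReal.ofReal (2 * 4 ^ β / (4 ^ β - 1)) * (ENNReal.ofReal ((2 * a + 1) ^ 3) *
        ∫⁻ τ in Ioo (t - r ^ 2) t, ∫⁻ z in ball x ((4 + a) * r), F τ z)
        ≤ ENNReal.ofReal (2 * 4 ^ β / (4 ^ β - 1) * ((2 * a + 1) ^ 3 * (C * r))) := by
      rw [ENNReal.ofReal_mul (by positivity), ENNReal.ofReal_mul (by positivity)]
      gcongr
    have h5 : ∑ n ∈ Finset.range N, (Y n).card * ENNReal.ofReal (ε * sc r n)
        = ENNReal.ofReal (∑ n ∈ Finset.range N, (Y n).card * (ε * sc r n)) := by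
      rw [ENNReal.ofReal_sum_of_nonneg]
      · refine Finset.sum_congr rfl fun n _ => ?_
        rw [← ENNReal.ofReal_natCast, ← ENNReal.ofReal_mul (by positivity)]
      · intro n _
        have := sc_pos hr n
        positivity
    have h6 := h3.trans h4
    rw [h5, ENNReal.ofReal_le_ofReal_iff (by positivity)] at h6
    have h7 : ∑ n ∈ Finset.range N, (Y n).card * (ε * sc r n)
        = ε * ∑ n ∈ Finset.range N, (Y n).card * sc r n := by
      rw [Finset.mul_sum]
      exact Finset.sum_congr rfl fun n _ => by ring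
    rw [h7] at h6
    have h8 : 2 * 4 ^ β / (4 ^ β - 1) * ((2 * a + 1) ^ 3 * (C * r)) = ε * (Q * r) := by
      rw [hQ]
      field_simp
    rw [h8] at h6
    exact le_of_mul_le_mul_left h6 hε
  by_contra hcon
  push Not at hcon
  -- the maximal sets
  have hmax : ∀ n, ∃ S : Finset V3, (∀ x ∈ S, ∀ y ∈ S, x ≠ y → sc r n ≤ ‖x - y‖) ∧
      (∀ y ∈ S, y ∈ closedBall x (4 * r) ∧
        ENNReal.ofReal (ε * sc r n) < DD F t β a (sc r n) y) ∧
      ∀ y, (y ∈ closedBall x (4 * r) ∧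
        ENNReal.ofReal (ε * sc r n) < DD F t β a (sc r n) y) → ∃ y' ∈ S, ‖y - y'‖ < sc r n := by
    intro n
    apply max_sep _ (sc_pos hr n) ⌈Q * r / sc r n⌉₊
    intro S hS1 hS2
    have h1 := hsum (n + 1) (fun m => if m = n then S else ∅) (by
        intro m y hy y' hy' hyy
        by_cases h : m = n
        · subst h
          simp only [if_true] at hy hy'
          exact hS1 y hy y' hy' hyy
        · simp only [if_neg h] at hy
          exact absurd hy (Finset.notMem_empty y)) (by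
        intro m y hy
        by_cases h : m = n
        · subst h
          simp only [if_true] at hy
          exact hS2 y hy
        · simp only [if_neg h] at hy
          exact absurd hy (Finset.notMem_empty y))
    have h2 : (S.card : ℝ) * sc r n
        ≤ ∑ m ∈ Finset.range (n + 1), ((if m = n then S else ∅ : Finset V3).card : ℝ) * sc r m := by
      have h3 := Finset.single_le_sum (s := Finset.range (n + 1))
        (f := fun m => ((if m = n then S else ∅ : Finset V3).card : ℝ) * sc r m)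
        (fun m _ => by have := sc_pos hr m; positivity) (Finset.self_mem_range_succ n)
      simpa using h3
    have h4 := h2.trans h1
    have h5 : (S.card : ℝ) ≤ Q * r / sc r n := by
      rw [le_div_iff₀ (sc_pos hr n)]
      exact h4
    exact_mod_cast h5.trans (Nat.le_ceil _)
  choose Y hY1 hY2 hY3 using hmax
  have h1 := hsum N Y hY1 hY2
  have h2 : ∀ n ∈ Finset.range N, σ * r ≤ 4 * ((Y n).card * sc r n) := by
    intro n hn
    have h3 := heights (e := e) (x := x) (a := σ * r) (b := 2 * σ * r) (Y n) (sc_pos hr n) (by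
      intro s hs
      obtain ⟨y, hy1, hy2, hy3⟩ := hcon n (Finset.mem_range.1 hn) s hs
      have hs0 : 0 ≤ s := (by positivity : 0 ≤ σ * r).trans hs.1
      obtain ⟨y', hy', hyy⟩ := hY3 n y ⟨near_disc hr hσ1 hs0 hs.2 hy2, hy3⟩
      refine ⟨y', hy', ?_⟩
      rw [← hy1]
      have := ht_lip he x y y'
      linarith)
    linarith
  have h3 := Finset.sum_le_sum h2
  rw [Finset.sum_const, nsmul_eq_mul, Finset.card_range, ← Finset.mul_sum] at h3
  rw [div_lt_iff₀ hσ] at hN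
  have h4 : (N : ℝ) * σ * r ≤ 4 * Q * r := by linarith
  have h5 := le_of_mul_le_mul_right h4 hr
  linarith

end Pool.Agent.Q26.CC
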