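import Pool.Agent.TH305.LW.GenAll
import Pool.Agent.TH305.DR.Scale
import Pool.Agent.W221.NS.Asm2
import Pool.Agent.Q26.CC.Sel

/-!
Good points (helper26, job CC-GOOD of helper85's project CC): analytic bounds at a point with small
weighted dissipation.
-/

set_option autoImplicit false

open MeasureTheory Set Metric Filter Topology
open scoped ContDiff ENNReal

namespace Pool.Agent.Q26.CC

open H459R3.NS W221.NS W221.NS.B
open Pool.Agent.TH305.LW (Pth ms MollP pth_exists pth_speed2 ms_lint frame_int ms_eq mass_cont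
  time_abs)
open Pool.Agent.TH305.DR (SS ST Om ST_frv st_jsT SS_nonneg)

lemma speed_along {ρ : ℝ} {u : ℝ → V → V} {α β : ℝ} {Z : ℝ → V} (hZ : Pth ρ u α β Z) {M a b : ℝ}
    (ha : α < a) (hab : a ≤ b) (hb : b ≤ β) (hM : ∀ τ ∈ Ico a b, ‖mol ρ u τ (Z τ)‖ ≤ M) :
    ‖Z b - Z a‖ ≤ M * (b - a) := by
  have hc : ContinuousOn Z (Icc a b) := hZ.cont.mono (Icc_subset_Icc ha.le hb)
  have h := norm_image_sub_le_of_norm_deriv_right_le_segment (f' := fun τ => mol ρ u τ (Z τ))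
    (C := M) hc
    (fun τ hτ => (hZ.ode τ ⟨ha.trans_le hτ.1, hτ.2.trans_le hb⟩).hasDerivWithinAt) hM
  exact h b ⟨hab, le_rfl⟩

/-- The integral of the dissipation as a lower integral. -/
lemma lint_conv {T : ℝ} {u : ℝ → V → V}
    (hu : ContDiffOn ℝ ∞ (fun z : ℝ × V => u z.1 z.2) (Ioo 0 T ×ˢ univ)) {a b : ℝ} (ha : 0 < a)
    (hab : a ≤ b) (hb : b < T) (y : V) (R : ℝ) :
    ∫⁻ τ in Ioo a b, ∫⁻ z in ball y R, ENNReal.ofReal (gsq (u τ) z)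
      = ENNReal.ofReal (∫ τ in Ioo a b, B2 y R (u τ)) := by
  have h1 : ContinuousOn (fun τ => B2 y R (u τ)) (Icc a b) :=
    mass_cont hu ha hb hab (Y := fun _ => y) continuousOn_const R
  have h2 : IntegrableOn (fun τ => B2 y R (u τ)) (Ioo a b) :=
    (h1.integrableOn_compact isCompact_Icc).mono_set Ioo_subset_Icc_self
  rw [ofReal_integral_eq_lintegral_ofReal h2
    (Eventually.of_forall fun τ => W612.MD.B2_nonneg _ _ _)]
  symm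
  apply setLIntegral_congr_fun measurableSet_Ioo
  intro τ hτ
  have hcd : ContDiff ℝ ∞ (u τ) := W382.ME.cd_slice hu ⟨ha.trans hτ.1, hτ.2.trans hb⟩
  show ENNReal.ofReal (B2 y R (u τ)) = _
  unfold B2
  exact ofReal_integral_eq_lintegral_ofReal (W382.ME.int_ball (W382.ME.gsq_cont hcd) _ _)
    (Eventually.of_forall fun y => W382.ME.gsq_nonneg _ y)

/-- The conclusion of `S_LOCA`. -/
def LocaP (ε c : ℝ) : Prop := ∀ (v : ℝ → V → V) (q : ℝ → V → ℝ), Loc2 v q →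
    IntegrableOn (fun t => B2 0 8 (v t)) (Ioo (-1) 0) →
    ∫ t in Ioo (-1) 0, B2 0 8 (v t) ≤ ε →
      ∀ n, ∀ t ∈ Ioo (-1 / 32 : ℝ) 0, ∀ x ∈ ball (0 : V) (1 / 16),
        ST n (v t) x ≤ (c ^ (n + 1) * n.factorial) ^ 2

/-- The conclusion of `gen_all`. -/
def GenP (CM εt ε0 : ℝ) (k1 : ℕ) : Prop :=
  ∀ (T κ E F : ℝ) (O : Set V) (u : ℝ → V → V) (p : ℝ → V → ℝ), 0 ≤ κ →
    0 ≤ E → 0 ≤ F → LSol3 T κ E F O u p → ∀ α s r : ℝ, 0 < α → s < T → 0 < r → r ≤ 1 →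
    α < s - 2 * r ^ 2 → r ^ 3 * F ≤ ε0 → ∀ X : ℝ → V, Pth r u α s X →
    ball (X s) (10 * r + 4 * CM * E * √r) ⊆ O →
    (∀ θ ∈ Ioo (0 : ℝ) 1, θ ^ (1 / 1152 : ℝ) * ms u r X (s - 2 * r ^ 2) (s - θ * r ^ 2) ≤ ε0) →
    ∀ J : ℕ, ms u r X (s - 2 * r ^ 2) s ≤ ε0 * 2 ^ Pool.Agent.TH305.LW.KK k1 J →
    ∀ Y : ℝ → V, Pth (rr (Pool.Agent.TH305.LW.KK k1 (J + 1)) * r) u α s Y →
      ‖Y s - X s‖ ≤ r / 16 →
      ms u (rr (Pool.Agent.TH305.LW.KK k1 (J + 1)) * r) Y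
        (s - (rr (Pool.Agent.TH305.LW.KK k1 (J + 1)) * r) ^ 2) s ≤ εt

/-- The bounds near the end of a path with small dissipation. -/
lemma loc_end {c εt : ℝ} (hloc : LocaP εt c) {T κ E : ℝ} {U : ℝ → V → V} {P : ℝ → V → ℝ}
    (hL : LSol T κ E (ball 0 3) U P) {q t α : ℝ} {y : V} (hq : 0 < q) (hα : 0 < α)
    (hαt : α < t - q ^ 2) (ht : t < T) {Y : ℝ → V} (hY : Pth q U α t Y) (hYt : Y t = y)
    (hO : ∀ τ ∈ Ioo (t - q ^ 2) t, ball (Y τ) (8 * q) ⊆ ball 0 3)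
    (hm : ms U q Y (t - q ^ 2) t ≤ εt) :
    ∀ z ∈ ball y (q / 16), ∀ (n : ℕ) (i j : Fin 3),
      SS n (Om i j (U t)) z ≤ (c ^ (n + 1) * n.factorial / q ^ (n + 2)) ^ 2 := by
  have hq2 : 0 < q ^ 2 := by positivity
  have hu := hL.smooth_u
  have hL2 := p_frame2 T κ E (ball 0 3) U P hL q t hq (by linarith) ht Y
    (hY.smooth.mono (Ioo_subset_Ioo_left hαt.le))
    (fun τ hτ => hY.ode τ ⟨hαt.trans hτ.1, hτ.2⟩) hO
  have hInt := frame_int (r := q) (s := t) hu hq hα hαt.le le_rfl ht hY.cont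
  have hms := ms_eq (r := q) (s := t) hu hq (by linarith) ht Y
  have hl := hloc _ _ hL2 hInt (by rw [hms]; exact hm)
  intro z hz n i j
  have hST : SS n (Om i j (U t)) z ≤ ST n (U t) z :=
    Finset.single_le_sum (f := fun p : Fin 3 × Fin 3 => SS n (Om p.1 p.2 (U t)) z)
      (fun _ _ => SS_nonneg _ _ _) (Finset.mem_univ (i, j))
  refine hST.trans ?_
  -- the limit
  have ht0 : 0 < t := by linarith
  have hcont : ContinuousOn (fun w : ℝ × V => ST n (U w.1) w.2) (Ioo 0 T ×ˢ univ) := st_jsT n hu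
  have hct : ContinuousAt (fun w : ℝ × V => ST n (U w.1) w.2) (t, z) :=
    hcont.continuousAt (prod_mem_nhds (Ioo_mem_nhds ht0 ht) Filter.univ_mem)
  have hct2 : Tendsto (fun τ : ℝ => ST n (U τ) z) (𝓝 t) (𝓝 (ST n (U t) z)) := by
    have h1 : ContinuousAt (fun τ : ℝ => (τ, z)) t := by fun_prop
    exact ContinuousAt.comp (g := fun w : ℝ × V => ST n (U w.1) w.2) (f := fun τ : ℝ => (τ, z))
      hct h1
  have hct3 : Tendsto (fun τ : ℝ => ST n (U τ) z) (𝓝[<] t) (𝓝 (ST n (U t) z)) :=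
    hct2.mono_left nhdsWithin_le_nhds
  apply le_of_tendsto hct3
  -- the path is close to `y`
  have hYc : Tendsto Y (𝓝[<] t) (𝓝 y) := by
    have h1 : ContinuousWithinAt Y (Icc α t) t := hY.cont t ⟨by linarith, le_rfl⟩
    have h2 : Tendsto Y (𝓝[Icc α t] t) (𝓝 (Y t)) := h1
    rw [hYt] at h2
    apply h2.mono_left
    rw [← nhdsWithin_Ioo_eq_nhdsLT (show α < t by linarith)]
    exact nhdsWithin_mono _ Ioo_subset_Icc_self
  have e1 : ∀ᶠ τ in 𝓝[<] t, z ∈ ball (Y τ) (q / 16) := by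
    have h1 : ∀ᶠ w in 𝓝 y, z ∈ ball w (q / 16) := by
      have h2 : Continuous fun w : V => dist z w := by fun_prop
      exact h2.continuousAt.eventually_lt continuousAt_const hz
    exact hYc.eventually h1
  have e2 : ∀ᶠ τ in 𝓝[<] t, τ ∈ Ioo (t - q ^ 2 / 32) t := Ioo_mem_nhdsLT (by linarith)
  filter_upwards [e1, e2] with τ h1 h2
  have hs : (τ - t) / q ^ 2 ∈ Ioo (-1 / 32 : ℝ) 0 := by
    constructor
    · rw [lt_div_iff₀ hq2]
      linarith [h2.1]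
    · exact div_neg_of_neg_of_pos (by linarith [h2.2]) hq2
  have hz' : q⁻¹ • (z - Y τ) ∈ ball (0 : V) (1 / 16) := by
    rw [mem_ball, dist_eq_norm] at h1
    rw [mem_ball_zero_iff, norm_smul, norm_inv, Real.norm_eq_abs, abs_of_pos hq,
      inv_mul_lt_iff₀ hq]
    linarith
  have h3 := hl n _ hs _ hz'
  have hτ : t + q ^ 2 * ((τ - t) / q ^ 2) = τ := time_abs hq
  have hcd : ContDiff ℝ ∞ (U (t + q ^ 2 * ((τ - t) / q ^ 2))) := by
    rw [hτ]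
    exact W382.ME.cd_slice hu ⟨by nlinarith [h2.1], by linarith [h2.2]⟩
  rw [ST_frv n hcd, hτ, smul_smul, mul_inv_cancel₀ hq.ne', one_smul, add_sub_cancel] at h3
  rw [div_pow, le_div_iff₀ (by positivity)]
  calc ST n (U τ) z * (q ^ (n + 2)) ^ 2 = q ^ (2 * n + 4) * ST n (U τ) z := by ring
    _ ≤ _ := h3

/-- Analytic bounds at a point with small weighted dissipation. -/
theorem good_pt {c εt ε0 CM : ℝ} {k1 : ℕ} (hloc : LocaP εt c) (hCM : 0 < CM) (hmol : MollP CM)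
    (hε0 : 0 < ε0) (hgen : GenP CM εt ε0 k1) {T κ E : ℝ} {U : ℝ → V → V} {P : ℝ → V → ℝ}
    (hκ : 0 ≤ κ) (hE : 0 ≤ E) (hL3 : LSol3 T κ E 0 (ball 0 3) U P)
    (hL : LSol T κ E (ball 0 3) U P) {K ρ t : ℝ} {y : V} {J : ℕ} (hK : 0 ≤ K) (hρ : 0 < ρ)
    (hρ1 : ρ ≤ 1 / 100) (hρt : 3 * ρ ^ 2 < t) (ht : t < T) (hy : ‖y‖ ≤ 3 / 2)
    (hsp : 2 * CM * E * √ρ ≤ 1 / 4)
    (hvel : ∀ τ ∈ Ioo (t - 2 * ρ ^ 2) t, ∀ z, ‖z‖ ≤ 2 → ‖mol ρ U τ z‖ ≤ K / ρ)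
    (hmass : ∫⁻ τ in Ioo (t - 2 * ρ ^ 2) t, ∫⁻ z in ball y ((8 + 2 * K) * ρ),
      ENNReal.ofReal (gsq (U τ) z)
        ≤ ENNReal.ofReal (ε0 * 2 ^ Pool.Agent.TH305.LW.KK k1 J * ρ))
    (hw : DD (fun τ z => ENNReal.ofReal (gsq (U τ) z)) t (1 / 1152) (8 + 2 * K) ρ y
      ≤ ENNReal.ofReal (ε0 * ρ)) :
    ∀ z ∈ ball y (rr (Pool.Agent.TH305.LW.KK k1 (J + 1)) * ρ / 16), ∀ (n : ℕ) (i j : Fin 3),
      SS n (Om i j (U t)) z ≤ (c ^ (n + 1) * n.factorial /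
        (rr (Pool.Agent.TH305.LW.KK k1 (J + 1)) * ρ) ^ (n + 2)) ^ 2 := by
  have hu := hL.smooth_u
  have hρ2 : 0 < ρ ^ 2 := by positivity
  obtain ⟨α, hαd⟩ : ∃ α, α = t - 3 * ρ ^ 2 := ⟨_, rfl⟩
  have hα : 0 < α := by rw [hαd]; linarith
  have hαt : α < t := by rw [hαd]; linarith
  have hα2 : α < t - 2 * ρ ^ 2 := by rw [hαd]; linarith
  obtain ⟨X, hX, hXt⟩ := pth_exists hmol hκ hE hL3 hρ hα hαt ht y
  -- the path stays near `y`
  have hrough : ∀ τ ∈ Ico (t - 2 * ρ ^ 2) t, ‖X τ‖ ≤ 2 := by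
    intro τ hτ
    have h1 := pth_speed2 hCM hmol hκ hE hL3 hρ le_rfl hα ht hX (a := τ) (b := t)
      (by linarith [hτ.1]) hτ.2.le le_rfl (by linarith [hτ.1])
    rw [hXt] at h1
    have h2 : ‖X τ‖ ≤ ‖y‖ + ‖y - X τ‖ := by
      have : X τ = y - (y - X τ) := by abel
      calc ‖X τ‖ = ‖y - (y - X τ)‖ := by rw [← this]
        _ ≤ _ := norm_sub_le _ _
    linarith
  have hnear : ∀ τ ∈ Ioo (t - 2 * ρ ^ 2) t, ‖y - X τ‖ ≤ 2 * K * ρ := by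
    intro τ hτ
    have h1 := speed_along hX (a := τ) (b := t) (M := K / ρ) (by linarith [hτ.1]) hτ.2.le le_rfl
      (fun τ' hτ' => hvel τ' ⟨hτ.1.trans_le hτ'.1, hτ'.2⟩ _
        (hrough τ' ⟨(hτ.1.trans_le hτ'.1).le, hτ'.2⟩))
    rw [hXt] at h1
    have h2 : K / ρ * (t - τ) ≤ K / ρ * (2 * ρ ^ 2) := by
      apply mul_le_mul_of_nonneg_left _ (by positivity)
      linarith [hτ.1]
    have h3 : K / ρ * (2 * ρ ^ 2) = 2 * K * ρ := by field_simp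
    linarith
  have hball : ∀ τ ∈ Ioo (t - 2 * ρ ^ 2) t, ball (X τ) (8 * ρ) ⊆ ball y ((8 + 2 * K) * ρ) := by
    intro τ hτ
    apply ball_subset_ball'
    rw [dist_comm, dist_eq_norm]
    have := hnear τ hτ
    linarith
  have hmono : ∀ (W : ℝ → ℝ≥0∞) (b : ℝ), b ≤ t →
      ∫⁻ τ in Ioo (t - 2 * ρ ^ 2) b, W τ * ∫⁻ z in ball (X τ) (8 * ρ), ENNReal.ofReal (gsq (U τ) z)
        ≤ ∫⁻ τ in Ioo (t - 2 * ρ ^ 2) b, W τ *
          ∫⁻ z in ball y ((8 + 2 * K) * ρ), ENNReal.ofReal (gsq (U τ) z) := by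
    intro W b hb
    apply setLIntegral_mono' measurableSet_Ioo
    intro τ hτ
    exact mul_le_mul_right (lintegral_mono_set (hball τ ⟨hτ.1, hτ.2.trans_le hb⟩)) _
  have hlint : ∀ b : ℝ, t - 2 * ρ ^ 2 ≤ b → b ≤ t → ENNReal.ofReal (ρ * ms U ρ X (t - 2 * ρ ^ 2) b)
      = ∫⁻ τ in Ioo (t - 2 * ρ ^ 2) b, ∫⁻ z in ball (X τ) (8 * ρ), ENNReal.ofReal (gsq (U τ) z) :=
    fun b h1 h2 => ms_lint hu hα ht hX.cont hρ hα2.le h1 h2
  have hO : ball (X t) (10 * ρ + 4 * CM * E * √ρ) ⊆ ball 0 3 := by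
    apply ball_subset_ball'
    rw [hXt, dist_zero_right]
    linarith
  -- the total mass
  have htot : ms U ρ X (t - 2 * ρ ^ 2) t ≤ ε0 * 2 ^ Pool.Agent.TH305.LW.KK k1 J := by
    have h1 := hmono (fun _ => 1) t le_rfl
    simp only [one_mul] at h1
    rw [← hlint t (by linarith) le_rfl] at h1
    have h2 := h1.trans hmass
    rw [ENNReal.ofReal_le_ofReal_iff (by positivity)] at h2
    have h3 : ρ * ms U ρ X (t - 2 * ρ ^ 2) t ≤ ρ * (ε0 * 2 ^ Pool.Agent.TH305.LW.KK k1 J) := by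
      linarith
    exact le_of_mul_le_mul_left h3 hρ
  -- the weighted mass
  have hwt : ∀ θ ∈ Ioo (0 : ℝ) 1, θ ^ (1 / 1152 : ℝ) *
      ms U ρ X (t - 2 * ρ ^ 2) (t - θ * ρ ^ 2) ≤ ε0 := by
    intro θ hθ
    have hθr : 0 < θ * ρ ^ 2 := mul_pos hθ.1 hρ2
    have hθr' : θ * ρ ^ 2 ≤ ρ ^ 2 := by nlinarith only [hθ.2, hρ2]
    have h1 := hlint (t - θ * ρ ^ 2) (by linarith) (by linarith)
    have h0 : 0 ≤ θ ^ (1 / 1152 : ℝ) := Real.rpow_nonneg hθ.1.le _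
    have h2 : ENNReal.ofReal (θ ^ (1 / 1152 : ℝ)) *
        ENNReal.ofReal (ρ * ms U ρ X (t - 2 * ρ ^ 2) (t - θ * ρ ^ 2))
        ≤ ENNReal.ofReal (ε0 * ρ) := by
      rw [h1, ← lintegral_const_mul' _ _ ENNReal.ofReal_ne_top]
      refine le_trans ?_ hw
      calc ∫⁻ τ in Ioo (t - 2 * ρ ^ 2) (t - θ * ρ ^ 2), ENNReal.ofReal (θ ^ (1 / 1152 : ℝ)) *
            ∫⁻ z in ball (X τ) (8 * ρ), ENNReal.ofReal (gsq (U τ) z)
          ≤ ∫⁻ τ in Ioo (t - 2 * ρ ^ 2) (t - θ * ρ ^ 2), ENNReal.ofReal (θ ^ (1 / 1152 : ℝ)) *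
            ∫⁻ z in ball y ((8 + 2 * K) * ρ), ENNReal.ofReal (gsq (U τ) z) :=
            hmono (fun _ => ENNReal.ofReal (θ ^ (1 / 1152 : ℝ))) _ (by linarith)
        _ ≤ ∫⁻ τ in Ioo (t - 2 * ρ ^ 2) (t - θ * ρ ^ 2),
            ENNReal.ofReal (((t - τ) / ρ ^ 2) ^ (1 / 1152 : ℝ)) *
            ∫⁻ z in ball y ((8 + 2 * K) * ρ), ENNReal.ofReal (gsq (U τ) z) := by
            apply setLIntegral_mono' measurableSet_Ioo
            intro τ hτ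
            apply mul_le_mul_left
            apply ENNReal.ofReal_le_ofReal
            apply Real.rpow_le_rpow hθ.1.le _ (by norm_num)
            rw [le_div_iff₀ hρ2]
            linarith [hτ.2]
        _ ≤ _ := lintegral_mono_set (Ioo_subset_Ioo le_rfl (by linarith))
    rw [← ENNReal.ofReal_mul h0, ENNReal.ofReal_le_ofReal_iff (by positivity)] at h2
    have h4 : ρ * (θ ^ (1 / 1152 : ℝ) * ms U ρ X (t - 2 * ρ ^ 2) (t - θ * ρ ^ 2)) ≤ ρ * ε0 := by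
      linarith only [h2]
    exact le_of_mul_le_mul_left h4 hρ
  -- the small scale
  obtain ⟨q, hqd⟩ : ∃ q, q = rr (Pool.Agent.TH305.LW.KK k1 (J + 1)) * ρ := ⟨_, rfl⟩
  have hr0 : 0 < rr (Pool.Agent.TH305.LW.KK k1 (J + 1)) := by unfold rr; positivity
  have hr1 : rr (Pool.Agent.TH305.LW.KK k1 (J + 1)) ≤ 1 := by
    unfold rr
    exact pow_le_one₀ (by norm_num) (by norm_num)
  have hq : 0 < q := by rw [hqd]; positivity
  have hqρ : q ≤ ρ := by rw [hqd]; nlinarith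
  have hq2 : q ^ 2 ≤ ρ ^ 2 := pow_le_pow_left₀ hq.le hqρ 2
  obtain ⟨Y, hY, hYt⟩ := pth_exists hmol hκ hE hL3 hq hα hαt ht y
  have hmain := hgen T κ E 0 (ball 0 3) U P hκ hE le_rfl hL3 α t ρ hα ht hρ (by linarith) hα2
    (by rw [mul_zero]; exact hε0.le) X hX hO hwt J htot Y (by rw [← hqd]; exact hY)
    (by rw [hXt, hYt, sub_self, norm_zero]; positivity)
  rw [← hqd] at hmain ⊢
  apply loc_end hloc hL hq hα (by linarith) ht hY hYt _ hmain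
  intro τ hτ
  have h1 := pth_speed2 hCM hmol hκ hE hL3 hq hqρ hα ht hY (a := τ) (b := t)
    (by linarith [hτ.1]) hτ.2.le le_rfl (by linarith [hτ.1, sq_nonneg q])
  rw [hYt] at h1
  apply ball_subset_ball'
  rw [dist_zero_right]
  have h2 : ‖Y τ‖ ≤ ‖y‖ + ‖y - Y τ‖ := by
    have : Y τ = y - (y - Y τ) := by abel
    calc ‖Y τ‖ = ‖y - (y - Y τ)‖ := by rw [← this]
      _ ≤ _ := norm_sub_le _ _
  linarith

end Pool.Agent.Q26.CC
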