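import Pool.Agent.Q26.CC.Good
import Pool.Agent.Y7.AN.Fin
import Pool.Agent.Q85.CC.Defs

/-!
A disc of good points (helper26, job CC-GOOD of helper85's project CC): the statement `StmGood`.
-/

set_option autoImplicit false

open MeasureTheory Set Metric Filter Topology
open scoped ContDiff ENNReal

namespace Pool.Agent.Q26.CC

open H459R3.NS W221.NS W221.NS.B
open Pool.Agent.TH305.LW (Pth ms MollP)
open Pool.Agent.TH305.DR (SS ST Om SS_succ SS_zero)
open Pool.Agent.Q85.CC (SQ cur Gd hgt pr2 StmGood)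

/-! ### The cut-off field -/

lemma pd_zero_on {O : Set V} (hO : IsOpen O) {f : V → ℝ} (hf : ∀ x ∈ O, f x = 0) (j : Fin 3) :
    ∀ x ∈ O, pd j f x = 0 := by
  intro x hx
  have h : f =ᶠ[𝓝 x] fun _ => (0 : ℝ) := by
    filter_upwards [hO.mem_nhds hx] with z hz using hf z hz
  unfold pd
  rw [h.fderiv_eq]
  simp

lemma lsol3_of {T κ E : ℝ} {O : Set V} {u : ℝ → V → V} {p : ℝ → V → ℝ} (h : LSol T κ E O u p) :
    LSol3 T κ E 0 O u p :=
  { openO := h.openO
    smooth_u := h.smooth_u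
    smooth_p := h.smooth_p
    divfree := h.divfree
    force := fun t ht => by
      have h0 : ∀ i, ∀ x ∈ O, res u p t x i = 0 := by
        intro i x hx
        have := h.momentum t ht x hx i
        show deriv (fun s => u s x i) t + adv (u t) (fun y => u t y i) x
          - lap (fun y => u t y i) x + pd i (p t) x = 0
        rw [this]
        ring
      intro x hx i
      have h1 := fun j => pd_zero_on h.openO (h0 i) j
      have h2 := fun j k => pd_zero_on h.openO (h1 k) j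
      have h3 := fun j k l => pd_zero_on h.openO (h2 k l) j
      refine ⟨by rw [h0 i x hx]; simp, fun j => ?_, fun j k => ?_, fun j k l => ?_⟩
      · have := h1 j x hx
        rw [this]
        simp
      · have := h2 j k x hx
        rw [this]
        simp
      · have := h3 j k l x hx
        rw [this]
        simp
    en_int := h.en_int
    en := h.en
    dv_int := h.dv_int
    dvb := h.dvb }

lemma zt_one {x : V} (hx : x ∈ ball (0 : V) 3) : zt x = 1 :=
  zt.one_of_mem_closedBall (ball_subset_closedBall hx)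

lemma cut_eq (u : ℝ → V → V) (t : ℝ) {x : V} (hx : x ∈ ball (0 : V) 3) :
    (fun y => zt y • u t y) =ᶠ[𝓝 x] u t := by
  filter_upwards [isOpen_ball.mem_nhds hx] with z hz
  rw [zt_one hz, one_smul]

lemma cut_comp (u : ℝ → V → V) (t : ℝ) {x : V} (hx : x ∈ ball (0 : V) 3) (i : Fin 3) :
    (fun y => (zt y • u t y) i) =ᶠ[𝓝 x] fun y => u t y i := by
  filter_upwards [isOpen_ball.mem_nhds hx] with z hz
  rw [zt_one hz, one_smul]

lemma pd_ev {f g : V → ℝ} {x : V} (h : f =ᶠ[𝓝 x] g) (j : Fin 3) : pd j f =ᶠ[𝓝 x] pd j g := by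
  filter_upwards [h.eventuallyEq_nhds] with z hz
  unfold pd
  rw [hz.fderiv_eq]

lemma SS_ev (n : ℕ) : ∀ {f g : V → ℝ} {x : V}, f =ᶠ[𝓝 x] g → SS n f x = SS n g x := by
  induction n with
  | zero =>
    intro f g x h
    rw [SS_zero, SS_zero, h.eq_of_nhds]
  | succ n ih =>
    intro f g x h
    rw [SS_succ, SS_succ]
    exact Finset.sum_congr rfl fun i _ => ih (pd_ev h i)

lemma gsq_cut (u : ℝ → V → V) (t : ℝ) {x : V} (hx : x ∈ ball (0 : V) 3) :
    gsq (fun y => zt y • u t y) x = gsq (u t) x := by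
  unfold gsq
  refine Finset.sum_congr rfl fun i _ => Finset.sum_congr rfl fun j _ => ?_
  have h := (pd_ev (cut_comp u t hx i) j).eq_of_nhds
  rw [h]

lemma om_cut (u : ℝ → V → V) (t : ℝ) {x : V} (hx : x ∈ ball (0 : V) 3) (n : ℕ) (i j : Fin 3) :
    SS n (Om i j (fun y => zt y • u t y)) x = SS n (Om i j (u t)) x := by
  apply SS_ev
  have h1 := pd_ev (cut_comp u t hx j) i
  have h2 := pd_ev (cut_comp u t hx i) j
  filter_upwards [h1, h2] with z e1 e2
  unfold Om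
  rw [e1, e2]

lemma mol_cut (u : ℝ → V → V) (t : ℝ) {ρ : ℝ} (hρ : 0 < ρ) (hρ1 : ρ ≤ 1 / 2) {z : V}
    (hz : ‖z‖ ≤ 2) : mol ρ (fun t x => zt x • u t x) t z = mol ρ u t z := by
  funext i
  unfold mol
  apply integral_congr_ae
  filter_upwards with y
  by_cases hy : y ∈ ball (0 : V) 1
  · have h1 : z + ρ • y ∈ ball (0 : V) 3 := by
      rw [mem_ball_zero_iff] at hy ⊢
      calc ‖z + ρ • y‖ ≤ ‖z‖ + ‖ρ • y‖ := norm_add_le _ _
        _ = ‖z‖ + ρ * ‖y‖ := by rw [norm_smul, Real.norm_eq_abs, abs_of_pos hρ]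
        _ < 3 := by nlinarith [norm_nonneg y]
    rw [zt_one h1, one_smul]
  · have h2 : th y = 0 := by
      unfold th
      have h3 : y ∉ Function.support (bmp.normed volume) := by
        rw [bmp.support_normed_eq]
        exact hy
      exact Function.notMem_support.1 h3
    rw [h2, zero_mul, zero_mul]

lemma SQ_eq (n : ℕ) : ∀ (f : V → ℝ) (x : V), SQ n f x = SS n f x := by
  induction n with
  | zero => intro f x; rfl
  | succ n ih =>
    intro f x
    rw [SS_succ]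
    show ∑ i, SQ n (pd i f) x = _
    exact Finset.sum_congr rfl fun i _ => ih _ _

/-- Small radii. -/
lemma small_r {T A L : ℝ} (hT : 0 < T) : ∃ r₀ : ℝ, 0 < r₀ ∧ ∀ r : ℝ, 0 < r → r ≤ r₀ →
    r ≤ 1 / 100 ∧ A * √r ≤ 1 / 4 ∧ L * r ≤ 1 ∧ 3 * (L * r) ^ 2 < T / 2 ∧ 3 * r ^ 2 < T / 2 := by
  have l1 : ∀ᶠ r : ℝ in 𝓝 0, r < 1 / 100 := by
    exact continuousAt_id.eventually_lt continuousAt_const (by norm_num)
  have l2 : ∀ᶠ r : ℝ in 𝓝 0, A * √r < 1 / 4 := by
    have h : Continuous fun r : ℝ => A * √r := by fun_prop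
    exact h.continuousAt.eventually_lt continuousAt_const (by simp)
  have l3 : ∀ᶠ r : ℝ in 𝓝 0, L * r < 1 := by
    have h : Continuous fun r : ℝ => L * r := by fun_prop
    exact h.continuousAt.eventually_lt continuousAt_const (by simp)
  have l4 : ∀ᶠ r : ℝ in 𝓝 0, 3 * (L * r) ^ 2 < T / 2 := by
    have h : Continuous fun r : ℝ => 3 * (L * r) ^ 2 := by fun_prop
    exact h.continuousAt.eventually_lt continuousAt_const (by simpa using hT)
  have l5 : ∀ᶠ r : ℝ in 𝓝 0, 3 * r ^ 2 < T / 2 := by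
    have h : Continuous fun r : ℝ => 3 * r ^ 2 := by fun_prop
    exact h.continuousAt.eventually_lt continuousAt_const (by simpa using hT)
  obtain ⟨δ, hδ, h⟩ := Metric.eventually_nhds_iff.1 (l1.and (l2.and (l3.and (l4.and l5))))
  refine ⟨δ / 2, by positivity, fun r hr hrr => ?_⟩
  obtain ⟨a1, a2, a3, a4, a5⟩ := h (show dist r 0 < δ by
    rw [Real.dist_eq, sub_zero, abs_of_pos hr]
    linarith)
  exact ⟨a1.le, a2.le, a3.le, a4, a5⟩

theorem good : StmGood := by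
  obtain ⟨εt, hεt, c, hc, hloc0⟩ := Pool.Agent.Y302.AN.t_loca Pool.Agent.Y455.AN.t_ead
    Pool.Agent.Y7.a_pta Pool.Agent.Y475.AN.t_hara
  have hloc : LocaP εt c := fun v q h1 h2 h3 n t ht x hx => (hloc0 v q h1 h2 h3 n t ht x hx).1
  obtain ⟨CM, hCM, hmol, hgen0⟩ := Pool.Agent.TH305.LW.gen_all
  obtain ⟨k1, ε0, hk1, hε0, hgen⟩ := hgen0 εt hεt
  obtain ⟨CP, hCP, hper⟩ := p_perl
  refine ⟨c, hc, ?_⟩
  intro K C₁ σ hK hC₁ hσ hσ1
  obtain ⟨a, had⟩ : ∃ a, a = 8 + 2 * K := ⟨_, rfl⟩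
  have ha8 : 8 ≤ a := by rw [had]; linarith
  have ha : 0 ≤ a := by linarith
  obtain ⟨N, hN⟩ := sel (β := 1 / 1152) (a := a) (ε := ε0) (C := C₁ * (4 + a)) (σ := σ)
    (by norm_num) (by norm_num) ha hε0 (by positivity) hσ hσ1
  obtain ⟨J, hJ⟩ := pow_unbounded_of_one_lt (C₁ * a / ε0) (show (1 : ℝ) < 2 by norm_num)
  have hJ' : C₁ * a ≤ ε0 * 2 ^ Pool.Agent.TH305.LW.KK k1 J := by
    have h1 : (2 : ℝ) ^ J ≤ 2 ^ Pool.Agent.TH305.LW.KK k1 J :=
      pow_le_pow_right₀ (by norm_num) (Pool.Agent.TH305.LW.KK_ge k1 J)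
    have h2 := (hJ.trans_le h1).le
    rw [div_le_iff₀ hε0] at h2
    linarith
  obtain ⟨R, hR⟩ : ∃ R, R = rr (Pool.Agent.TH305.LW.KK k1 (J + 1)) := ⟨_, rfl⟩
  have hR0 : 0 < R := by rw [hR]; unfold rr; positivity
  have hR1 : R ≤ 1 := by
    rw [hR]
    unfold rr
    exact pow_le_one₀ (by norm_num) (by norm_num)
  have h2N : (1 : ℝ) ≤ 2 ^ N := one_le_pow₀ (by norm_num)
  refine ⟨R / 2 ^ N / 16, a + 4, by positivity, ?_, by linarith, ?_⟩
  · have : R / 2 ^ N ≤ 1 := by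
      rw [div_le_one (by positivity)]
      linarith
    linarith
  intro T u p hT hsol
  have hL := hper T u p hT hsol
  have hL3 := lsol3_of hL
  obtain ⟨E, hE⟩ : ∃ E, E = CP * √(energy (u 0)) := ⟨_, rfl⟩
  rw [← hE] at hL hL3
  have hE0 : 0 ≤ E := by rw [hE]; positivity
  obtain ⟨r₀, hr₀, hsm⟩ := small_r (T := T) (A := 2 * CM * E) (L := a + 4) hT
  refine ⟨r₀, hr₀, ?_⟩
  intro t r x e hr hrr ht1 ht2 hx he hvel hdis
  obtain ⟨a1, a2, a3, a4, a5⟩ := hsm r hr hrr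
  have ht0 : 0 < t := by linarith
  have hu : ContDiffOn ℝ ∞ (fun z : ℝ × V => u z.1 z.2) (Ioo 0 T ×ˢ univ) :=
    hsol.smooth_u.mono (prod_mono Ioo_subset_Ico_self le_rfl)
  have he' : ∑ i, e i ^ 2 = 1 := by
    rw [← he]
    exact Finset.sum_congr rfl fun i _ => by ring
  have hr2 : 0 < r ^ 2 := by positivity
  have har : 0 < (4 + a) * r := by positivity
  -- the total dissipation
  have hlint : ∀ (y : V) (ρ' b : ℝ), 0 < ρ' → ρ' ≤ (a + 4) * r → t - ρ' ^ 2 ≤ b → b < t →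
      ∫⁻ τ in Ioo b t, ∫⁻ z in ball y ρ', ENNReal.ofReal (gsq (u τ) z)
        ≤ ENNReal.ofReal (C₁ * ρ') := by
    intro y ρ' b h1 h2 h3 h4
    have h5 : ρ' ^ 2 ≤ ((a + 4) * r) ^ 2 := pow_le_pow_left₀ h1.le h2 2
    have h50 : 0 < ρ' ^ 2 := by positivity
    have h51 : 0 < ((a + 4) * r) ^ 2 := by positivity
    have h6 := lint_conv hu (a := t - ρ' ^ 2) (b := t) (by linarith) (by linarith) ht2 y ρ'
    calc ∫⁻ τ in Ioo b t, ∫⁻ z in ball y ρ', ENNReal.ofReal (gsq (u τ) z)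
        ≤ ∫⁻ τ in Ioo (t - ρ' ^ 2) t, ∫⁻ z in ball y ρ', ENNReal.ofReal (gsq (u τ) z) :=
          lintegral_mono_set (Ioo_subset_Ioo_left h3)
      _ = ENNReal.ofReal (∫ τ in Ioo (t - ρ' ^ 2) t, B2 y ρ' (u τ)) := h6
      _ ≤ _ := ENNReal.ofReal_le_ofReal (hdis y ρ' ⟨h1, h2⟩)
  have htotal : ∫⁻ τ in Ioo (t - r ^ 2) t, ∫⁻ z in ball x ((4 + a) * r),
      ENNReal.ofReal (gsq (u τ) z) ≤ ENNReal.ofReal (C₁ * (4 + a) * r) := by
    have h0 : r ^ 2 ≤ ((4 + a) * r) ^ 2 := pow_le_pow_left₀ hr.le (by nlinarith) 2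
    have h1 := hlint x ((4 + a) * r) (t - r ^ 2) har (by linarith) (by linarith) (by linarith)
    rw [mul_assoc]
    exact h1
  obtain ⟨n, hn, s, hs, hgood⟩ := hN (fun τ z => ENNReal.ofReal (gsq (u τ) z)) t r x e hr he'
    htotal
  refine ⟨s, hs, ?_⟩
  intro y hy1 hy2
  have hs0 : 0 ≤ s := (by positivity : 0 ≤ σ * r).trans hs.1
  have hy3 : ∑ i, (y i - x i) ^ 2 - s ^ 2 ≤ r ^ 2 := by
    have h1 : pr2 e x y = ∑ i, (y i - x i) ^ 2 - s ^ 2 := by
      unfold pr2
      rw [hy1]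
      congr 1
      exact Finset.sum_congr rfl fun i _ => by
        show (y - x) i * (y - x) i = _
        rw [Pi.sub_apply]
        ring
    rw [← h1]
    exact hy2
  have hyx := near_disc hr hσ1 hs0 hs.2 hy3
  have hD := hgood y hy1 hy3
  obtain ⟨ρ, hρd⟩ : ∃ ρ, ρ = sc r n := ⟨_, rfl⟩
  rw [← hρd] at hD
  have hρ : 0 < ρ := by rw [hρd]; exact sc_pos hr n
  have hρr : ρ ≤ r / 2 := by rw [hρd]; exact sc_le hr n
  have hρ2 : ρ ^ 2 ≤ r ^ 2 := pow_le_pow_left₀ hρ.le (by linarith) 2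
  have hρ20 : 0 < ρ ^ 2 := by positivity
  have hxn : ‖x‖ ≤ 1 := by
    rw [pi_norm_le_iff_of_nonneg zero_le_one]
    intro i
    have h1 : 0 ≤ x i := hx.1 i
    have h2 : x i ≤ 1 := hx.2 i
    rw [Real.norm_eq_abs, abs_of_nonneg h1]
    exact h2
  have hyn : ‖y‖ ≤ 3 / 2 := by
    rw [mem_closedBall, dist_eq_norm] at hyx
    have h1 : ‖y‖ ≤ ‖y - x‖ + ‖x‖ := by
      have : y = (y - x) + x := by abel
      calc ‖y‖ = ‖(y - x) + x‖ := by rw [← this]
        _ ≤ _ := norm_add_le _ _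
    linarith
  have haρ : a * ρ ≤ 1 := by
    have h1 : a * ρ ≤ (a + 4) * r := by nlinarith
    linarith
  have hball : ball y (a * ρ) ⊆ ball (0 : V) 3 := by
    apply ball_subset_ball'
    rw [dist_zero_right]
    linarith
  have hcutI : ∀ τ, ∫⁻ z in ball y (a * ρ), ENNReal.ofReal (gsq (fun x => zt x • u τ x) z)
      = ∫⁻ z in ball y (a * ρ), ENNReal.ofReal (gsq (u τ) z) := fun τ =>
    setLIntegral_congr_fun measurableSet_ball fun z hz => by
      simp only [gsq_cut u τ (hball hz)]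
  have key := good_pt hloc hCM hmol hε0 hgen hE0 hE0 hL3 hL (K := K) (ρ := ρ) (t := t) (y := y)
    (J := J) hK hρ (by linarith) (by linarith) ht2 hyn
    (by
      have h1 : √ρ ≤ √r := Real.sqrt_le_sqrt (by linarith)
      have h2 : 2 * CM * E * √ρ ≤ 2 * CM * E * √r := mul_le_mul_of_nonneg_left h1 (by positivity)
      linarith)
    (by
      intro τ hτ z hz
      rw [mol_cut u τ hρ (by linarith) hz]
      apply hvel τ _ z ρ ⟨hρ, by linarith⟩
      refine ⟨?_, hτ.2⟩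
      have h1 : 2 * ρ ^ 2 ≤ (a + 4) * r ^ 2 := by nlinarith
      linarith [hτ.1])
    (by
      rw [← had]
      simp only [hcutI]
      have h1 : t - (a * ρ) ^ 2 ≤ t - 2 * ρ ^ 2 := by
        have h0 : (8 * ρ) ^ 2 ≤ (a * ρ) ^ 2 :=
          pow_le_pow_left₀ (by positivity) (mul_le_mul_of_nonneg_right ha8 hρ.le) 2
        have h00 : (8 * ρ) ^ 2 = 64 * ρ ^ 2 := by ring
        linarith
      refine (hlint y (a * ρ) (t - 2 * ρ ^ 2) (by positivity) (by nlinarith) h1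
        (by linarith)).trans ?_
      apply ENNReal.ofReal_le_ofReal
      nlinarith)
    (by
      rw [← had]
      unfold DD
      simp only [hcutI]
      exact hD)
  rw [← hR] at key
  -- the scales
  have hhr : R / 2 ^ N / 16 * r ≤ R * ρ / 16 := by
    have h1 : r / 2 ^ N ≤ ρ := by
      rw [hρd]
      unfold sc
      apply div_le_div_of_nonneg_left hr.le (by positivity)
      exact pow_le_pow_right₀ (by norm_num) (by omega)
    have h2 : R / 2 ^ N / 16 * r = R * (r / 2 ^ N) / 16 := by ring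
    rw [h2]
    have h3 : R * (r / 2 ^ N) ≤ R * ρ := mul_le_mul_of_nonneg_left h1 hR0.le
    linarith
  have hh0 : 0 < R / 2 ^ N / 16 * r := by positivity
  have hRρ : 0 < R * ρ := by positivity
  intro z hz n' i j
  have hz1 : z ∈ ball y (R * ρ / 16) := ball_subset_ball hhr hz
  have hz2 : z ∈ ball (0 : V) 3 := by
    apply hball
    apply ball_subset_ball _ hz1
    nlinarith
  have h1 := key z hz1 n' i j
  rw [om_cut u t hz2 n' i j] at h1
  rw [SQ_eq]
  refine (show SS n' (cur i j (u t)) z ≤ _ from h1).trans ?_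
  have hc0 : 0 < c := by linarith
  apply pow_le_pow_left₀ (by positivity)
  apply div_le_div_of_nonneg_left (by positivity) (by positivity)
  apply pow_le_pow_left₀ hh0.le
  linarith

end Pool.Agent.Q26.CC
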