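import Mathlib

/-!
Counting bad points (helper26, job CC-GOOD of helper85's project CC).
-/

set_option autoImplicit false

open MeasureTheory Set Metric
open scoped ENNReal

namespace Pool.Agent.Q26.CC

/-- the space -/
abbrev V3 := Fin 3 → ℝ

lemma sum_lint_le {α ι : Type*} [MeasurableSpace α] (μ : Measure α) (s : Finset ι)
    (f : ι → α → ℝ≥0∞) : ∑ i ∈ s, ∫⁻ a, f i a ∂μ ≤ ∫⁻ a, ∑ i ∈ s, f i a ∂μ := by
  classical
  induction s using Finset.induction_on with
  | empty => simp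
  | insert i s hi ih =>
    rw [Finset.sum_insert hi]
    simp_rw [Finset.sum_insert hi]
    exact (add_le_add_right ih _).trans (le_lintegral_add _ _)

/-- A separated set in a ball has few points. -/
lemma pack_card (S : Finset V3) {ρ C : ℝ} (hρ : 0 < ρ) (hC : 0 ≤ C)
    (hsep : ∀ x ∈ S, ∀ y ∈ S, x ≠ y → ρ ≤ ‖x - y‖) (w : V3) (hw : ∀ y ∈ S, ‖w - y‖ < C * ρ) :
    (S.card : ℝ) ≤ (2 * C + 1) ^ 3 := by
  have hdisj : (S : Set V3).PairwiseDisjoint (fun y => ball y (ρ / 2)) := by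
    intro x hx y hy hxy
    apply ball_disjoint_ball
    rw [dist_eq_norm]
    have := hsep x hx y hy hxy
    linarith
  have h1 : volume (⋃ y ∈ S, ball y (ρ / 2)) = ∑ y ∈ S, volume (ball y (ρ / 2)) :=
    measure_biUnion_finset hdisj fun _ _ => measurableSet_ball
  have h2 : (⋃ y ∈ S, ball y (ρ / 2)) ⊆ ball w ((C + 1 / 2) * ρ) := by
    intro z hz
    simp only [mem_iUnion, mem_ball, dist_eq_norm] at hz ⊢
    obtain ⟨y, hy, hzy⟩ := hz
    have h3 := hw y hy
    have h4 : ‖z - w‖ ≤ ‖z - y‖ + ‖y - w‖ := by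
      have : z - w = (z - y) + (y - w) := by abel
      rw [this]
      exact norm_add_le _ _
    rw [norm_sub_rev y w] at h4
    linarith
  have h3 := measure_mono (μ := volume) h2
  rw [h1] at h3
  simp only [Real.volume_pi_ball _ (show 0 < ρ / 2 by positivity),
    Real.volume_pi_ball _ (show 0 < (C + 1 / 2) * ρ by positivity), Finset.sum_const,
    nsmul_eq_mul, Fintype.card_fin] at h3
  rw [← ENNReal.ofReal_natCast, ← ENNReal.ofReal_mul (by positivity),
    ENNReal.ofReal_le_ofReal_iff (by positivity)] at h3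
  have e1 : (2 * (ρ / 2)) ^ 3 = ρ ^ 3 := by ring
  have e2 : (2 * ((C + 1 / 2) * ρ)) ^ 3 = (2 * C + 1) ^ 3 * ρ ^ 3 := by ring
  rw [e1, e2] at h3
  exact le_of_mul_le_mul_right h3 (by positivity)

/-- The overlap of balls around separated points is bounded. -/
lemma overlap (S : Finset V3) {ρ C : ℝ} (hρ : 0 < ρ) (hC : 0 ≤ C)
    (hsep : ∀ x ∈ S, ∀ y ∈ S, x ≠ y → ρ ≤ ‖x - y‖) (g : V3 → ℝ≥0∞) (B : Set V3)
    (hBm : MeasurableSet B) (hB : ∀ y ∈ S, ball y (C * ρ) ⊆ B) :
    ∑ y ∈ S, ∫⁻ z in ball y (C * ρ), g z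
      ≤ ENNReal.ofReal ((2 * C + 1) ^ 3) * ∫⁻ z in B, g z := by
  classical
  have h1 : ∀ y, ∫⁻ z in ball y (C * ρ), g z = ∫⁻ z, (ball y (C * ρ)).indicator g z := fun y =>
    (lintegral_indicator measurableSet_ball g).symm
  simp_rw [h1]
  rw [← lintegral_indicator hBm g, ← lintegral_const_mul' _ _ ENNReal.ofReal_ne_top]
  refine (sum_lint_le volume S _).trans (lintegral_mono fun z => ?_)
  show ∑ y ∈ S, (ball y (C * ρ)).indicator g z ≤ _
  have h2 : ∑ y ∈ S, (ball y (C * ρ)).indicator g z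
      = ∑ y ∈ S.filter (fun y => z ∈ ball y (C * ρ)), g z := by
    rw [Finset.sum_filter]
    refine Finset.sum_congr rfl fun y _ => ?_
    by_cases h : z ∈ ball y (C * ρ)
    · rw [indicator_of_mem h, if_pos h]
    · rw [indicator_of_notMem h, if_neg h]
  rw [h2, Finset.sum_const, nsmul_eq_mul]
  by_cases hz : z ∈ B
  · rw [indicator_of_mem hz]
    gcongr
    rw [← ENNReal.ofReal_natCast]
    apply ENNReal.ofReal_le_ofReal
    apply pack_card _ hρ hC _ z
    · intro y hy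
      have := (Finset.mem_filter.1 hy).2
      rwa [mem_ball, dist_eq_norm] at this
    · intro x hx y hy
      exact hsep x (Finset.mem_filter.1 hx).1 y (Finset.mem_filter.1 hy).1
  · have h3 : S.filter (fun y => z ∈ ball y (C * ρ)) = ∅ := by
      rw [Finset.filter_eq_empty_iff]
      intro y hy h
      exact hz (hB y hy h)
    rw [h3]
    simp

/-- The sum of the weights. -/
lemma wsum {β : ℝ} (hβ : 0 < β) (hβ1 : β ≤ 1) {x : ℝ} (hx : 0 ≤ x) (N : ℕ) :
    (∑ n ∈ Finset.range N, if x * 4 ^ n < 2 then (x * 4 ^ n) ^ β else 0)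
      ≤ (x * 4 ^ N) ^ β / (4 ^ β - 1) ∧
    (∑ n ∈ Finset.range N, if x * 4 ^ n < 2 then (x * 4 ^ n) ^ β else 0)
      ≤ 2 * 4 ^ β / (4 ^ β - 1) := by
  have hl : (1 : ℝ) < 4 ^ β := Real.one_lt_rpow (by norm_num) hβ
  have hl1 : (0 : ℝ) < 4 ^ β - 1 := by linarith
  induction N with
  | zero =>
    simp only [Finset.range_zero, Finset.sum_empty]
    refine ⟨div_nonneg (Real.rpow_nonneg (by positivity) _) hl1.le, by positivity⟩
  | succ N ih =>
    rw [Finset.sum_range_succ]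
    have e : (x * 4 ^ (N + 1)) ^ β = (x * 4 ^ N) ^ β * 4 ^ β := by
      rw [← Real.mul_rpow (by positivity) (by norm_num)]
      congr 1
      ring
    have hp : 0 ≤ (x * 4 ^ N) ^ β := Real.rpow_nonneg (by positivity) _
    by_cases h : x * 4 ^ N < 2
    · rw [if_pos h]
      have h1 : (x * 4 ^ N) ^ β / (4 ^ β - 1) + (x * 4 ^ N) ^ β
          = (x * 4 ^ N) ^ β * 4 ^ β / (4 ^ β - 1) := by
        field_simp
        ring
      have h2 : (x * 4 ^ N) ^ β ≤ 2 := by
        calc (x * 4 ^ N) ^ β ≤ 2 ^ β := Real.rpow_le_rpow (by positivity) h.le hβ.le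
          _ ≤ 2 ^ (1 : ℝ) := Real.rpow_le_rpow_of_exponent_le (by norm_num) hβ1
          _ = 2 := Real.rpow_one 2
      constructor
      · rw [e, ← h1]
        linarith [ih.1]
      · calc _ ≤ (x * 4 ^ N) ^ β / (4 ^ β - 1) + (x * 4 ^ N) ^ β := by linarith [ih.1]
          _ = (x * 4 ^ N) ^ β * 4 ^ β / (4 ^ β - 1) := h1
          _ ≤ 2 * 4 ^ β / (4 ^ β - 1) := by gcongr
    · rw [if_neg h, add_zero]
      refine ⟨ih.1.trans ?_, ih.2⟩
      rw [e]
      gcongr
      exact le_mul_of_one_le_right hp hl.le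

end Pool.Agent.Q26.CC
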