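import Pool.Agent.Q26.CC.Cnt

/-!
Counting bad points (helper26, job CC-GOOD of helper85's project CC): the selection of a scale and
of a height.
-/

set_option autoImplicit false

open MeasureTheory Set Metric
open scoped ENNReal

namespace Pool.Agent.Q26.CC

/-- The weighted integral around `y`. -/
noncomputable def DD (F : ℝ → V3 → ℝ≥0∞) (t β a ρ : ℝ) (y : V3) : ℝ≥0∞ :=
  ∫⁻ τ in Ioo (t - 2 * ρ ^ 2) t, ENNReal.ofReal (((t - τ) / ρ ^ 2) ^ β) *
    ∫⁻ z in ball y (a * ρ), F τ z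

/-- The scales. -/
noncomputable def sc (r : ℝ) (n : ℕ) : ℝ := r / 2 ^ (n + 1)

lemma sc_pos {r : ℝ} (hr : 0 < r) (n : ℕ) : 0 < sc r n := by unfold sc; positivity

lemma sc_le {r : ℝ} (hr : 0 < r) (n : ℕ) : sc r n ≤ r / 2 := by
  unfold sc
  apply div_le_div_of_nonneg_left hr.le (by norm_num)
  calc (2 : ℝ) = 2 ^ 1 := by norm_num
    _ ≤ 2 ^ (n + 1) := pow_le_pow_right₀ (by norm_num) (by omega)

lemma sc_sq (r : ℝ) (n : ℕ) : sc r n ^ 2 = r ^ 2 / (4 * 4 ^ n) := by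
  unfold sc
  rw [div_pow, ← pow_mul, show (4 : ℝ) * 4 ^ n = 2 ^ ((n + 1) * 2) by
    rw [show (4 : ℝ) = 2 ^ 2 by norm_num, ← pow_mul, ← pow_add]
    congr 1
    ring]

theorem count_sum {F : ℝ → V3 → ℝ≥0∞} {t β a r ε : ℝ} (hβ : 0 < β) (hβ1 : β ≤ 1) (ha : 0 ≤ a)
    (hr : 0 < r) (x : V3) (N : ℕ) (Y : ℕ → Finset V3)
    (hsep : ∀ n, ∀ y ∈ Y n, ∀ y' ∈ Y n, y ≠ y' → sc r n ≤ ‖y - y'‖)
    (hY : ∀ n, ∀ y ∈ Y n, y ∈ closedBall x (4 * r))
    (hD : ∀ n, ∀ y ∈ Y n, ENNReal.ofReal (ε * sc r n) ≤ DD F t β a (sc r n) y) :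
    ∑ n ∈ Finset.range N, (Y n).card * ENNReal.ofReal (ε * sc r n)
      ≤ ENNReal.ofReal (2 * 4 ^ β / (4 ^ β - 1)) * (ENNReal.ofReal ((2 * a + 1) ^ 3) *
        ∫⁻ τ in Ioo (t - r ^ 2) t, ∫⁻ z in ball x ((4 + a) * r), F τ z) := by
  obtain ⟨G, hG⟩ : ∃ G : ℝ → ℝ≥0∞, G = fun τ => ENNReal.ofReal ((2 * a + 1) ^ 3) *
    ∫⁻ z in ball x ((4 + a) * r), F τ z := ⟨_, rfl⟩
  have h1 : ∀ n, (Y n).card * ENNReal.ofReal (ε * sc r n)
      ≤ ∫⁻ τ, (Ioo (t - 2 * sc r n ^ 2) t).indicator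
        (fun τ => ENNReal.ofReal (((t - τ) / sc r n ^ 2) ^ β) * G τ) τ := by
    intro n
    rw [lintegral_indicator measurableSet_Ioo]
    calc (Y n).card * ENNReal.ofReal (ε * sc r n)
        = ∑ y ∈ Y n, ENNReal.ofReal (ε * sc r n) := by rw [Finset.sum_const, nsmul_eq_mul]
      _ ≤ ∑ y ∈ Y n, DD F t β a (sc r n) y := Finset.sum_le_sum fun y hy => hD n y hy
      _ ≤ ∫⁻ τ in Ioo (t - 2 * sc r n ^ 2) t, ∑ y ∈ Y n,
          ENNReal.ofReal (((t - τ) / sc r n ^ 2) ^ β) * ∫⁻ z in ball y (a * sc r n), F τ z :=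
          sum_lint_le _ _ _
      _ ≤ _ := by
          apply lintegral_mono
          intro τ
          show ∑ y ∈ Y n, ENNReal.ofReal (((t - τ) / sc r n ^ 2) ^ β) *
            ∫⁻ z in ball y (a * sc r n), F τ z ≤ _
          rw [← Finset.mul_sum, hG]
          apply mul_le_mul_right
          apply overlap (Y n) (sc_pos hr n) ha (hsep n) (F τ) _ measurableSet_ball
          intro y hy
          apply ball_subset_ball'
          have h2 := hY n y hy
          rw [mem_closedBall] at h2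
          have h3 := sc_le hr n
          have h4 : a * sc r n ≤ a * r := mul_le_mul_of_nonneg_left (by linarith) ha
          linarith
  refine (Finset.sum_le_sum fun n _ => h1 n).trans ((sum_lint_le _ _ _).trans ?_)
  rw [← lintegral_const_mul' _ _ ENNReal.ofReal_ne_top,
    ← lintegral_const_mul' _ _ ENNReal.ofReal_ne_top, ← lintegral_indicator measurableSet_Ioo]
  apply lintegral_mono
  intro τ
  show ∑ n ∈ Finset.range N, (Ioo (t - 2 * sc r n ^ 2) t).indicator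
        (fun τ => ENNReal.ofReal (((t - τ) / sc r n ^ 2) ^ β) * G τ) τ ≤ _
  by_cases hτ : τ ∈ Ioo (t - r ^ 2) t
  · rw [indicator_of_mem hτ]
    have hr2 : 0 < r ^ 2 := by positivity
    obtain ⟨q, hq⟩ : ∃ q, q = (t - τ) * 4 / r ^ 2 := ⟨_, rfl⟩
    have hq0 : 0 ≤ q := by
      rw [hq]
      have := hτ.2
      exact div_nonneg (by linarith) hr2.le
    have e1 : ∀ n, (t - τ) / sc r n ^ 2 = q * 4 ^ n := by
      intro n
      rw [sc_sq, hq]
      field_simp
    have h2 : ∑ n ∈ Finset.range N, (Ioo (t - 2 * sc r n ^ 2) t).indicator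
        (fun τ => ENNReal.ofReal (((t - τ) / sc r n ^ 2) ^ β) * G τ) τ
        = ENNReal.ofReal (∑ n ∈ Finset.range N, if q * 4 ^ n < 2 then (q * 4 ^ n) ^ β else 0)
          * G τ := by
      rw [ENNReal.ofReal_sum_of_nonneg, Finset.sum_mul]
      · refine Finset.sum_congr rfl fun n _ => ?_
        have hs : 0 < sc r n ^ 2 := pow_pos (sc_pos hr n) 2
        by_cases h : q * 4 ^ n < 2
        · have h' : τ ∈ Ioo (t - 2 * sc r n ^ 2) t := by
            refine ⟨?_, hτ.2⟩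
            rw [← e1, div_lt_iff₀ hs] at h
            linarith
          rw [indicator_of_mem h', if_pos h, e1]
        · have h' : τ ∉ Ioo (t - 2 * sc r n ^ 2) t := by
            intro h'
            apply h
            rw [← e1, div_lt_iff₀ hs]
            linarith [h'.1]
          rw [indicator_of_notMem h', if_neg h]
          simp
      · intro n _
        split_ifs
        · exact Real.rpow_nonneg (by positivity) _
        · exact le_rfl
    rw [h2]
    show _ ≤ ENNReal.ofReal (2 * 4 ^ β / (4 ^ β - 1)) * (ENNReal.ofReal ((2 * a + 1) ^ 3) *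
      ∫⁻ z in ball x ((4 + a) * r), F τ z)
    rw [hG]
    apply mul_le_mul_left
    exact ENNReal.ofReal_le_ofReal (wsum hβ hβ1 hq0 N).2
  · rw [indicator_of_notMem hτ]
    apply le_of_eq
    apply Finset.sum_eq_zero
    intro n _
    apply indicator_of_notMem
    intro h
    apply hτ
    refine ⟨?_, h.2⟩
    have h3 := sc_le hr n
    have h4 : sc r n ^ 2 ≤ (r / 2) ^ 2 := pow_le_pow_left₀ (sc_pos hr n).le h3 2
    nlinarith [h.1, sq_nonneg r]

/-- A maximal separated set of bad points. -/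
lemma max_sep (P : V3 → Prop) {ρ : ℝ} (hρ : 0 < ρ) (M : ℕ)
    (hM : ∀ S : Finset V3, (∀ x ∈ S, ∀ y ∈ S, x ≠ y → ρ ≤ ‖x - y‖) → (∀ x ∈ S, P x) →
      S.card ≤ M) :
    ∃ S : Finset V3, (∀ x ∈ S, ∀ y ∈ S, x ≠ y → ρ ≤ ‖x - y‖) ∧ (∀ x ∈ S, P x) ∧
      ∀ x, P x → ∃ y ∈ S, ‖x - y‖ < ρ := by
  classical
  obtain ⟨A, hA⟩ : ∃ A : Set ℕ, A = {k | ∃ S : Finset V3, (∀ x ∈ S, ∀ y ∈ S, x ≠ y →
    ρ ≤ ‖x - y‖) ∧ (∀ x ∈ S, P x) ∧ S.card = k} := ⟨_, rfl⟩
  have hne : A.Nonempty := ⟨0, by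
    rw [hA]
    exact ⟨∅, by simp, by simp, rfl⟩⟩
  have hbd : BddAbove A := ⟨M, by
    rw [hA]
    rintro k ⟨S, h1, h2, rfl⟩
    exact hM S h1 h2⟩
  have hmem := Nat.sSup_mem hne hbd
  rw [hA] at hmem
  obtain ⟨S, h1, h2, h3⟩ := hmem
  refine ⟨S, h1, h2, fun x hx => ?_⟩
  by_contra hcon
  push Not at hcon
  have hxS : x ∉ S := by
    intro h
    have := hcon x h
    simp only [sub_self, norm_zero] at this
    linarith
  have h4 : (insert x S).card ∈ A := by
    rw [hA]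
    refine ⟨insert x S, ?_, ?_, rfl⟩
    · intro y hy z hz hyz
      rw [Finset.mem_insert] at hy hz
      rcases hy with rfl | hy
      · rcases hz with rfl | hz
        · exact absurd rfl hyz
        · exact hcon z hz
      · rcases hz with rfl | hz
        · rw [norm_sub_rev]
          exact hcon y hy
        · exact h1 y hy z hz hyz
    · intro y hy
      rw [Finset.mem_insert] at hy
      rcases hy with rfl | hy
      · exact hx
      · exact h2 y hy
  have h5 := le_csSup hbd h4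
  rw [Finset.card_insert_of_notMem hxS] at h5
  rw [← hA] at h3
  omega

end Pool.Agent.Q26.CC
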